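import Pool.Agent.H45.EGH.S1

/-!
# EGH, module LIN: ideals generated by linear forms
-/

set_option autoImplicit false

namespace Pool.EGH

open MvPolynomial

namespace LINaux

variable {K : Type} [Field K] {N : ℕ}

/-- A retraction of the polynomial ring which kills exactly the ideal generated by `L`. -/
theorem retr (L : Submodule K (PR K N)) (hL : L ≤ fm K N 1) :
    ∃ φ : PR K N →ₐ[K] PR K N,
      RingHom.ker φ = Ideal.span (L : Set (PR K N)) ∧ ∀ l ∈ fm K N 1, φ l = 0 → l ∈ L := by
  obtain ⟨M, hM⟩ := L.exists_isCompl
  -- the projection to `M` along `L`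
  let p : PR K N →ₗ[K] PR K N := M.subtype ∘ₗ Submodule.projectionOnto M L hM.symm
  have hp : ∀ x, x - p x ∈ L := by
    intro x
    have h : Submodule.projectionOnto M L hM.symm (x - p x) = 0 := by
      rw [map_sub, sub_eq_zero]
      have : Submodule.projectionOnto M L hM.symm
          ((Submodule.projectionOnto M L hM.symm x : M) : PR K N) =
            Submodule.projectionOnto M L hM.symm x :=
        Submodule.projectionOnto_apply_left hM.symm _
      exact this.symm
    have h2 := (Submodule.projectionOnto_apply_eq_zero_iff hM.symm).1 h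
    exact h2
  have hp0 : ∀ x ∈ L, p x = 0 := by
    intro x hx
    have := (Submodule.projectionOnto_apply_eq_zero_iff hM.symm).2 hx
    simp [p, this]
  let φ : PR K N →ₐ[K] PR K N := aeval (fun i => p (X i))
  have hφ : ∀ l ∈ fm K N 1, φ l = p l := by
    intro l hl
    have hl' : l ∈ Submodule.span K (Set.range (X : Fin N → PR K N)) := by
      rw [← homogeneousSubmodule_one_eq_span_X]; exact hl
    induction hl' using Submodule.span_induction with
    | mem x hx => obtain ⟨i, rfl⟩ := hx; simp [φ]
    | zero => simp
    | add x y hx hy h1 h2 =>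
      have hx' : x ∈ fm K N 1 := by
        change x ∈ homogeneousSubmodule (Fin N) K 1
        rw [homogeneousSubmodule_one_eq_span_X]; exact hx
      have hy' : y ∈ fm K N 1 := by
        change y ∈ homogeneousSubmodule (Fin N) K 1
        rw [homogeneousSubmodule_one_eq_span_X]; exact hy
      rw [map_add, map_add, h1 hx', h2 hy']
    | smul a x hx h1 =>
      have hx' : x ∈ fm K N 1 := by
        change x ∈ homogeneousSubmodule (Fin N) K 1
        rw [homogeneousSubmodule_one_eq_span_X]; exact hx
      rw [map_smul, map_smul, h1 hx']
  have hdiff : ∀ f : PR K N, f - φ f ∈ Ideal.span (L : Set (PR K N)) := by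
    intro f
    have key : (Ideal.Quotient.mkₐ K (Ideal.span (L : Set (PR K N)))).comp φ =
        Ideal.Quotient.mkₐ K (Ideal.span (L : Set (PR K N))) := by
      apply MvPolynomial.algHom_ext
      intro i
      have h1 : φ (X i) = p (X i) := by simp [φ]
      rw [AlgHom.comp_apply, h1]
      change Ideal.Quotient.mk _ _ = Ideal.Quotient.mk _ _
      rw [Ideal.Quotient.eq, ← neg_sub]
      exact neg_mem (Ideal.subset_span (hp (X i)))
    have h2 := congrArg (fun g => g f) key
    simp only [AlgHom.comp_apply] at h2
    change Ideal.Quotient.mk _ _ = Ideal.Quotient.mk _ _ at h2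
    rw [Ideal.Quotient.eq] at h2
    rw [← neg_sub]
    exact neg_mem h2
  refine ⟨φ, le_antisymm ?_ ?_, ?_⟩
  · intro f hf
    have h3 : φ f = 0 := hf
    have := hdiff f
    rwa [h3, sub_zero] at this
  · rw [Ideal.span_le]
    intro l hl
    change φ l = 0
    rw [hφ l (hL hl), hp0 l hl]
  · intro l hl h0
    rw [hφ l hl] at h0
    have := hp l
    rwa [h0, sub_zero] at this

theorem part2 (L : Submodule K (PR K N)) (hL : L ≤ fm K N 1) :
    ∀ l ∈ fm K N 1, l ∈ Ideal.span (L : Set (PR K N)) → l ∈ L := by
  obtain ⟨φ, h1, h2⟩ := retr L hL
  intro l hl hl'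
  rw [← h1] at hl'
  exact h2 l hl hl'

theorem part3 (L : Submodule K (PR K N)) (hL : L ≤ fm K N 1) :
    ∀ l ∈ fm K N 1, l ∉ L → Rg (Ideal.span (L : Set (PR K N))) l := by
  obtain ⟨φ, h1, h2⟩ := retr L hL
  intro l hl hl' z hz
  rw [← h1] at hz ⊢
  have h3 : φ l * φ z = 0 := by rw [← map_mul]; exact hz
  rcases mul_eq_zero.1 h3 with h | h
  · exact absurd (h2 l hl h) hl'
  · exact h

theorem part1 : ∀ (d : ℕ) (L : Submodule K (PR K N)), L ≤ fm K N 1 → Module.finrank K L = d →
    MCI d 0 (Ideal.span (L : Set (PR K N))) := by
  intro d
  induction d with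
  | zero =>
    intro L hL h0
    have : Module.Finite K ↥(fm K N 1) := by
      rw [Module.Finite.iff_fg]; exact homogeneousSubmodule_fg (Fin N) K 1
    have : Module.Finite K L := Submodule.finiteDimensional_of_le hL
    have : L = ⊥ := Submodule.finrank_eq_zero.1 h0
    subst this
    have h : Ideal.span (((⊥ : Submodule K (PR K N)) : Set (PR K N))) = ⊥ := by
      rw [Submodule.bot_coe]; exact Ideal.span_singleton_eq_bot.2 rfl
    rw [h]
    exact MCI.zero
  | succ d ih =>
    intro L hL h0
    have : Module.Finite K ↥(fm K N 1) := by
      rw [Module.Finite.iff_fg]; exact homogeneousSubmodule_fg (Fin N) K 1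
    have : Module.Finite K L := Submodule.finiteDimensional_of_le hL
    let b := Module.finBasisOfFinrankEq K L h0
    -- `L'` spanned by the first `d` vectors
    let v : Fin (d + 1) → PR K N := fun i => (b i : PR K N)
    have hv : LinearIndependent K v := b.linearIndependent.map' L.subtype (Submodule.ker_subtype L)
    have hvL : Submodule.span K (Set.range v) = L := by
      have h1 : Set.range v = L.subtype '' (Set.range b) := by
        rw [← Set.range_comp]; rfl
      rw [h1, ← Submodule.map_span, b.span_eq, Submodule.map_top, Submodule.range_subtype]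
    let v' : Fin d → PR K N := fun i => v i.castSucc
    have hv' : LinearIndependent K v' := hv.comp _ (Fin.castSucc_injective d)
    let L' : Submodule K (PR K N) := Submodule.span K (Set.range v')
    have hL'd : Module.finrank K L' = d := by
      rw [finrank_span_eq_card hv']; exact Fintype.card_fin d
    have hrange : Set.range v = insert (v (Fin.last d)) (Set.range v') := by
      ext x
      constructor
      · rintro ⟨i, rfl⟩
        refine Fin.lastCases ?_ (fun j => ?_) i
        · exact Set.mem_insert _ _
        · exact Set.mem_insert_of_mem _ ⟨j, rfl⟩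
      · rintro (rfl | ⟨j, rfl⟩)
        · exact ⟨_, rfl⟩
        · exact ⟨j.castSucc, rfl⟩
    have hL'L : L' ≤ L := by
      rw [← hvL]
      exact Submodule.span_mono (by rw [hrange]; exact Set.subset_insert _ _)
    have hlast : v (Fin.last d) ∈ L := (b (Fin.last d)).2
    have hnot : v (Fin.last d) ∉ L' := by
      intro hmem
      have h1 : L ≤ L' := by
        rw [← hvL, Submodule.span_le, hrange]
        rintro x (rfl | hx)
        · exact hmem
        · exact Submodule.subset_span hx
      have h2 : L = L' := le_antisymm h1 hL'L
      rw [h2, hL'd] at h0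
      omega
    have h3 : Ideal.span (L : Set (PR K N)) =
        Ideal.span (L' : Set (PR K N)) ⊔ Ideal.span {v (Fin.last d)} := by
      apply le_antisymm
      · rw [Ideal.span_le]
        intro x hx
        have hx' : x ∈ Submodule.span K (Set.range v) := by rw [hvL]; exact hx
        induction hx' using Submodule.span_induction with
        | mem y hy =>
          rw [hrange] at hy
          rcases hy with rfl | hy
          · exact Ideal.mem_sup_right (Ideal.subset_span rfl)
          · exact Ideal.mem_sup_left (Ideal.subset_span (Submodule.subset_span hy))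
        | zero => exact zero_mem _
        | add y z hy hz h1 h2 =>
          have hy' : y ∈ L := by rw [← hvL]; exact hy
          have hz' : z ∈ L := by rw [← hvL]; exact hz
          exact add_mem (h1 hy') (h2 hz')
        | smul a y hy h1 =>
          have hy' : y ∈ L := by rw [← hvL]; exact hy
          rw [Algebra.smul_def]
          exact Ideal.mul_mem_left _ _ (h1 hy')
      · refine sup_le (Ideal.span_mono hL'L) ?_
        rw [Ideal.span_le, Set.singleton_subset_iff]
        exact Ideal.subset_span hlast
    rw [h3]
    exact MCI.lin (ih L' (hL'L.trans hL) hL'd) (hL hlast)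
      (part3 L' (hL'L.trans hL) _ (hL hlast) hnot)

end LINaux

/-- LIN. -/
theorem t_lin : LINStmt := by
  intro K _ N L hL
  exact ⟨LINaux.part1 _ L hL rfl, LINaux.part2 L hL, LINaux.part3 L hL⟩

end Pool.EGH

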