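import Pool.Agent.H45.EGH.S3

/-!
# EGH, module MAC: Macaulay representations
-/

set_option autoImplicit false

namespace Pool.EGH

namespace MACaux

theorem top_le {i a h : ℕ} (hi : 1 ≤ i) (hi6 : i ≤ 6) (h1 : a.choose i ≤ h)
    (h2 : h ≤ Nat.choose 6 i) : a ≤ 6 := by
  by_contra hc
  have h3 : (7 : ℕ).choose i ≤ a.choose i := Nat.choose_le_choose i (by omega)
  have h4 : Nat.choose 6 i < Nat.choose 7 i := by
    interval_cases i <;> decide
  omega

theorem case2 : ∀ a : Fin 7, ∀ b : Fin a, (b : ℕ) + (a : ℕ).choose 2 ≤ 15 →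
    b2 ((b : ℕ) + (a : ℕ).choose 2) ≤ (b : ℕ).choose 2 + (a : ℕ).choose 3 := by
  decide

theorem case3 : ∀ a : Fin 7, ∀ b : Fin a, ∀ c : Fin b,
    (c : ℕ) + (b : ℕ).choose 2 + (a : ℕ).choose 3 ≤ 20 →
    b3 ((c : ℕ) + (b : ℕ).choose 2 + (a : ℕ).choose 3) ≤
      (c : ℕ).choose 2 + (b : ℕ).choose 3 + (a : ℕ).choose 4 := by
  decide

theorem case4 : ∀ a : Fin 7, ∀ b : Fin a, ∀ c : Fin b, ∀ d : Fin c,
    (d : ℕ) + (c : ℕ).choose 2 + (b : ℕ).choose 3 + (a : ℕ).choose 4 ≤ 15 →
    b4 ((d : ℕ) + (c : ℕ).choose 2 + (b : ℕ).choose 3 + (a : ℕ).choose 4) ≤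
      (d : ℕ).choose 2 + (c : ℕ).choose 3 + (b : ℕ).choose 4 + (a : ℕ).choose 5 := by
  decide

theorem sum1 (f : ℕ → ℕ) : ∑ k ∈ Finset.Icc 1 1, f k = f 1 := by simp

theorem sum2 (f : ℕ → ℕ) : ∑ k ∈ Finset.Icc 1 2, f k = f 1 + f 2 := by
  rw [Finset.sum_Icc_succ_top (by norm_num), sum1]

theorem sum3 (f : ℕ → ℕ) : ∑ k ∈ Finset.Icc 1 3, f k = f 1 + f 2 + f 3 := by
  rw [Finset.sum_Icc_succ_top (by norm_num), sum2]

theorem sum4 (f : ℕ → ℕ) : ∑ k ∈ Finset.Icc 1 4, f k = f 1 + f 2 + f 3 + f 4 := by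
  rw [Finset.sum_Icc_succ_top (by norm_num), sum3]

end MACaux

open MACaux

/-- MAC. -/
theorem t_mac : MACStmt := by
  intro i h m hi hh hm hs
  have hle : ∀ k ∈ Finset.Icc 1 i, (m k).choose k ≤ h := by
    intro k hk
    rw [hs]
    exact Finset.single_le_sum (f := fun k => (m k).choose k) (fun _ _ => Nat.zero_le _) hk
  rcases Nat.lt_or_ge i 6 with h6 | h6
  · have htop : m i ≤ 6 :=
      top_le hi (by omega) (hle i (Finset.mem_Icc.2 ⟨hi, le_rfl⟩)) hh
    interval_cases i
    · -- i = 1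
      rw [sum1] at hs ⊢
      rw [Nat.choose_one_right] at hs
      rw [hs]
      exact le_rfl
    · -- i = 2
      rw [sum2, Nat.choose_one_right] at hs
      rw [sum2]
      have h12 := hm 1 (by norm_num) (by norm_num)
      have := case2 ⟨m 2, by omega⟩ ⟨m 1, h12⟩ (by
        have h15 : Nat.choose 6 2 = 15 := rfl
        simp only
        omega)
      rw [hs]
      exact this
    · rw [sum3, Nat.choose_one_right] at hs
      rw [sum3]
      have h12 := hm 1 (by norm_num) (by norm_num)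
      have h23 := hm 2 (by norm_num) (by norm_num)
      have := case3 ⟨m 3, by omega⟩ ⟨m 2, h23⟩ ⟨m 1, h12⟩ (by
        have h15 : Nat.choose 6 3 = 20 := rfl
        simp only
        omega)
      rw [hs]
      exact this
    · rw [sum4, Nat.choose_one_right] at hs
      rw [sum4]
      have h12 := hm 1 (by norm_num) (by norm_num)
      have h23 := hm 2 (by norm_num) (by norm_num)
      have h34 := hm 3 (by norm_num) (by norm_num)
      have := case4 ⟨m 4, by omega⟩ ⟨m 3, h34⟩ ⟨m 2, h23⟩ ⟨m 1, h12⟩ (by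
        have h15 : Nat.choose 6 4 = 15 := rfl
        simp only
        omega)
      rw [hs]
      exact this
    · -- i = 5
      change (if h = 6 then 1 else 0) ≤ _
      split_ifs with h5
      · rw [Nat.one_le_iff_ne_zero]
        intro h0
        rw [Finset.sum_eq_zero_iff] at h0
        have h1 : ∀ k ∈ Finset.Icc 1 5, (m k).choose k ≤ 1 := by
          intro k hk
          have h2 := h0 k hk
          rw [Nat.choose_eq_zero_iff] at h2
          rcases Nat.lt_or_ge (m k) k with h3 | h3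
          · rw [Nat.choose_eq_zero_of_lt h3]; exact Nat.zero_le _
          · have : m k = k := by omega
            rw [this, Nat.choose_self]
        have h2 := Finset.sum_le_sum h1
        rw [← hs, h5] at h2
        simp at h2
      · exact Nat.zero_le _
  · have : bd i h = 0 := by
      unfold bd
      split <;> omega
    rw [this]
    exact Nat.zero_le _

end Pool.EGH

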