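import Pool.Agent.H45.EGH.S3

/-!
# EGH, module STR: the structure attached to `u`
-/

set_option autoImplicit false

namespace Pool.EGH

open MvPolynomial

namespace STRaux

variable {K : Type} [Field K] {N : ℕ}

theorem ml_gp_mul {Q : Ideal (PR K N)} (w : PR K N ⧸ Q) (i : ℕ)
    (V : Submodule K (PR K N ⧸ Q)) : ml w (gp Q i * V) = gp Q i * ml w V := by
  apply le_antisymm
  · rw [ml, Submodule.map_le_iff_le_comap, Submodule.mul_le]
    intro a ha v hv
    rw [Submodule.mem_comap]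
    change w * (a * v) ∈ _
    rw [mul_left_comm]
    exact Submodule.mul_mem_mul ha ⟨v, hv, rfl⟩
  · rw [Submodule.mul_le]
    rintro a ha _ ⟨v, hv, rfl⟩
    refine ⟨a * v, Submodule.mul_mem_mul ha hv, ?_⟩
    change w * (a * v) = a * (w * v)
    rw [mul_left_comm]

theorem mem_ml {Q : Ideal (PR K N)} {w x : PR K N ⧸ Q} {V : Submodule K (PR K N ⧸ Q)} :
    x ∈ ml w V ↔ ∃ v ∈ V, w * v = x := Iff.rfl

theorem mem_kr {Q : Ideal (PR K N)} {w x : PR K N ⧸ Q} {V : Submodule K (PR K N ⧸ Q)} :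
    x ∈ kr w V ↔ x ∈ V ∧ w * x = 0 := Iff.rfl

theorem mem_ann {Q : Ideal (PR K N)} {j : ℕ} {x : PR K N ⧸ Q}
    {V : Submodule K (PR K N ⧸ Q)} : x ∈ ann Q j V ↔ x ∈ gp Q j ∧ ∀ v ∈ V, x * v = 0 := Iff.rfl

end STRaux

open STRaux

/-- STR. -/
theorem t_str (hRK : RK4Stmt) (hANN : ANNStmt) (hANV : ANVStmt) (hRNK : RNKStmt)
    (hGPM : GPMStmt) (hGPD : GPDStmt) : STRStmt := by
  intro K _ _ Q U u w C hD
  obtain ⟨hc4, hu, hu0, hw, hwu, ⟨v0, hv0, hwv0⟩, hC⟩ := hD
  obtain ⟨hci, hU2, hU4, hkf, -⟩ := id hc4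
  obtain ⟨hfin, hmul, hg0, -⟩ := hGPM K 6 Q
  obtain ⟨hd9, hrk⟩ := hRK K Q U hc4
  have hfinV : ∀ (i : ℕ) (V : Submodule K (PR K 6 ⧸ Q)), V ≤ gp Q i → Module.Finite K V := by
    intro i V hV
    have := hfin i
    exact Submodule.finiteDimensional_of_le hV
  have hUfin : Module.Finite K U := hfinV 2 U hU2
  -- ranks
  obtain ⟨hr1, -⟩ := hRNK K 6 2 Q w U hU2
  have hkrle : kr w U ≤ gp Q 2 := (inf_le_left).trans hU2
  have hkrfin : Module.Finite K (kr w U) := hfinV 2 _ hkrle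
  have hukr : u ∈ kr w U := mem_kr.2 ⟨hu, hwu⟩
  have hkr1 : 1 ≤ Module.finrank K ↥(kr w U) := by
    rw [Nat.one_le_iff_ne_zero]
    intro h
    have h1 : kr w U = ⊥ := Submodule.finrank_eq_zero.1 h
    rw [h1] at hukr
    exact hu0 ((Submodule.mem_bot K).1 hukr)
  have hml3' : 3 ≤ Module.finrank K ↥(ml w U) ∧
      (Module.finrank K ↥(ml w U) = 3 → dg Q (ml w U) = 3) := by
    rcases hrk w hw with h | h
    · exact absurd (h v0 hv0) hwv0
    · exact h
  have hml3 : Module.finrank K ↥(ml w U) = 3 := by have := hml3'.1; omega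
  have hkr1' : Module.finrank K ↥(kr w U) = 1 := by omega
  have hdg3 : dg Q (ml w U) = 3 := hml3'.2 hml3
  -- the space `Z = w U`
  have hZ4 : ml w U ≤ gp Q 4 := by
    rintro _ ⟨v, hv, rfl⟩
    rw [← hmul 2 2]
    exact Submodule.mul_mem_mul hw (hU2 hv)
  have hZfin : Module.Finite K (ml w U) := hfinV 4 _ hZ4
  have hC1 : C ≤ gp Q 1 := by
    rw [hC]; intro x hx; exact (mem_ann.1 hx).1
  have hCfin : Module.Finite K C := hfinV 1 _ hC1
  have hC3 : Module.finrank K C = 3 := by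
    have h := hANN K 6 6 Q hci 4 1 1 rfl (ml w U) hZ4
    have h6 : (6 : ℕ).choose 1 = 6 := rfl
    rw [h6] at h
    have h2 : Module.finrank K ↥(gp Q 1 * ml w U) = 3 := hdg3
    rw [h2] at h
    rw [hC]
    omega
  have hZC : ml w U ≤ ann Q 4 C := by
    intro x hx
    refine mem_ann.2 ⟨hZ4 hx, fun c hc => ?_⟩
    rw [hC] at hc
    rw [mul_comm]
    exact (mem_ann.1 hc).2 x hx
  have hannfin : Module.Finite K (ann Q 4 C) := hfinV 4 _ (fun x hx => (mem_ann.1 hx).1)
  have hann3 : Module.finrank K ↥(ann Q 4 C) ≤ 3 := by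
    have h := hANV K 6 6 Q hci C hC1 4 (by norm_num)
    rw [hC3] at h
    exact h
  have hZeq : ml w U = ann Q 4 C :=
    Submodule.eq_of_le_of_finrank_le hZC (by rw [hml3]; exact hann3)
  have hgC : Module.finrank K ↥(gp Q 1 * C) = 12 := by
    have h := hANN K 6 6 Q hci 1 4 1 rfl C hC1
    have h6 : (6 : ℕ).choose 4 = 15 := rfl
    rw [h6, ← hZeq, hml3] at h
    omega
  refine ⟨hml3, hC1, hC3, hgC, hZeq.symm, ?_, ?_, ?_⟩
  · -- the kernel of `w` on `U`
    intro v hv hwv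
    have hvkr : v ∈ kr w U := mem_kr.2 ⟨hv, hwv⟩
    have := (finrank_eq_one_iff_of_nonzero' (⟨u, hukr⟩ : kr w U)
      (by intro h; exact hu0 (congrArg Subtype.val h))).1 hkr1' ⟨v, hvkr⟩
    obtain ⟨a, ha⟩ := this
    exact ⟨a, (congrArg Subtype.val ha).symm⟩
  · -- the annihilator of `U`
    intro y hy hyU
    have h1 : gp Q 1 * C ≤ ann Q 2 (ml w U) := by
      rw [Submodule.mul_le]
      intro a ha c hc
      refine mem_ann.2 ⟨?_, fun z hz => ?_⟩
      · rw [← hmul 1 1]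
        exact Submodule.mul_mem_mul ha (hC1 hc)
      · rw [hC] at hc
        rw [mul_assoc, (mem_ann.1 hc).2 z hz, mul_zero]
    have h2 : Module.finrank K ↥(ann Q 2 (ml w U)) = 12 := by
      have h := hANN K 6 6 Q hci 4 2 0 rfl (ml w U) hZ4
      have h6 : (6 : ℕ).choose 2 = 15 := rfl
      rw [h6, hg0, hml3] at h
      omega
    have hf2 : Module.Finite K (ann Q 2 (ml w U)) := hfinV 2 _ (fun x hx => (mem_ann.1 hx).1)
    have h3 : gp Q 1 * C = ann Q 2 (ml w U) :=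
      Submodule.eq_of_le_of_finrank_le h1 (by rw [h2, hgC])
    rw [h3]
    refine mem_ann.2 ⟨hy, ?_⟩
    rintro _ ⟨v, hv, rfl⟩
    change y * (w * v) = 0
    rw [mul_left_comm, hyU v hv, mul_zero]
  · intro c hc g hg
    have hV3 : gp Q 1 * U ≤ gp Q 3 := by
      rw [← hmul 1 2]
      exact mul_le_mul_right hU2 _
    obtain ⟨hr2, -⟩ := hRNK K 6 3 Q w (gp Q 1 * U) hV3
    have h9 : Module.finrank K ↥(gp Q 1 * U) = 9 := hd9
    have hm3 : Module.finrank K ↥(ml w (gp Q 1 * U)) = 3 := by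
      rw [ml_gp_mul]; exact hdg3
    have hk6 : Module.finrank K ↥(kr w (gp Q 1 * U)) = 6 := by omega
    have hkf3 : Module.Finite K (kr w (gp Q 1 * U)) := hfinV 3 _ (inf_le_left.trans hV3)
    -- the space `A_1 u`
    have h1le : ml u (gp Q 1) ≤ kr w (gp Q 1 * U) := by
      rintro _ ⟨l, hl, rfl⟩
      refine mem_kr.2 ⟨?_, ?_⟩
      · change u * l ∈ _
        rw [mul_comm]
        exact Submodule.mul_mem_mul hl hu
      · change w * (u * l) = 0
        rw [← mul_assoc, hwu, zero_mul]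
    have h6 : Module.finrank K ↥(ml u (gp Q 1)) = 6 := by
      have hinj : ∀ x ∈ gp Q 1, LinearMap.mulLeft K u x = 0 → x = 0 := by
        intro x hx h
        change u * x = 0 at h
        rw [mul_comm] at h
        rcases hkf x hx u hu h with h | h
        · exact h
        · exact absurd h hu0
      have hinj' : Function.Injective ((LinearMap.mulLeft K u).domRestrict (gp Q 1)) := by
        rw [← LinearMap.ker_eq_bot, LinearMap.ker_eq_bot']
        intro x hx
        exact Subtype.ext (hinj x.1 x.2 hx)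
      have h1 : ml u (gp Q 1) = LinearMap.range ((LinearMap.mulLeft K u).domRestrict (gp Q 1)) := by
        rw [LinearMap.range_domRestrict]
        rfl
      rw [h1, LinearMap.finrank_range_of_inj hinj', (hGPD K 6 Q).2 6 hci 1]
      rfl
    have heq : ml u (gp Q 1) = kr w (gp Q 1 * U) :=
      Submodule.eq_of_le_of_finrank_le h1le (by rw [h6, hk6])
    have hcg : c * g ∈ kr w (gp Q 1 * U) := by
      refine mem_kr.2 ⟨Submodule.mul_mem_mul (hC1 hc) hg, ?_⟩
      rw [hC] at hc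
      rw [mul_left_comm]
      exact (mem_ann.1 hc).2 _ ⟨g, hg, rfl⟩
    rw [← heq] at hcg
    obtain ⟨l, hl, h⟩ := hcg
    refine ⟨l, hl, ?_⟩
    rw [← h]
    change u * l = l * u
    rw [mul_comm]

end Pool.EGH

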