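import Pool.Agent.H45.EGH.S3

/-!
# EGH, modules T3P, KF3, RK4: the determinant trick and its consequences
-/

set_option autoImplicit false

namespace Pool.EGH

open MvPolynomial

namespace T3Paux

variable {K : Type} [Field K] {N : ℕ}

theorem mem_ml {Q : Ideal (PR K N)} {w x : PR K N ⧸ Q} {V : Submodule K (PR K N ⧸ Q)} :
    x ∈ ml w V ↔ ∃ v ∈ V, w * v = x := Iff.rfl

theorem mem_kr {Q : Ideal (PR K N)} {w x : PR K N ⧸ Q} {V : Submodule K (PR K N ⧸ Q)} :
    x ∈ kr w V ↔ x ∈ V ∧ w * x = 0 := Iff.rfl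

theorem mem_ann {Q : Ideal (PR K N)} {j : ℕ} {x : PR K N ⧸ Q}
    {V : Submodule K (PR K N ⧸ Q)} : x ∈ ann Q j V ↔ x ∈ gp Q j ∧ ∀ v ∈ V, x * v = 0 := Iff.rfl

theorem finV (hGPM : GPMStmt) {Q : Ideal (PR K N)} (i : ℕ) (V : Submodule K (PR K N ⧸ Q))
    (hV : V ≤ gp Q i) : Module.Finite K V := by
  have := (hGPM K N Q).1 i
  exact Submodule.finiteDimensional_of_le hV

/-- The dimension of `A_1 V`, `V` of dimension one, no linear form kills `V`. -/
theorem dg_one (hGPD : GPDStmt) {Q : Ideal (PR K N)} {n : ℕ}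
    (hci : CI n Q) (V : Submodule K (PR K N ⧸ Q)) (hkf : KF Q V)
    (h1 : Module.finrank K V = 1) : dg Q V = n := by
  obtain ⟨⟨u, hu⟩, hu0, hspan⟩ := finrank_eq_one_iff'.1 h1
  have hu0' : u ≠ 0 := fun h => hu0 (Subtype.ext h)
  have heq : gp Q 1 * V = ml u (gp Q 1) := by
    apply le_antisymm
    · rw [Submodule.mul_le]
      intro a ha v hv
      obtain ⟨c, hc⟩ := hspan ⟨v, hv⟩
      have hc' : c • u = v := congrArg Subtype.val hc
      refine ⟨c • a, Submodule.smul_mem _ c ha, ?_⟩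
      change u * (c • a) = a * v
      rw [← hc', mul_smul_comm, mul_smul_comm, mul_comm]
    · rintro _ ⟨l, hl, rfl⟩
      change u * l ∈ _
      rw [mul_comm]
      exact Submodule.mul_mem_mul hl hu
  have hinj' : Function.Injective ((LinearMap.mulLeft K u).domRestrict (gp Q 1)) := by
    rw [← LinearMap.ker_eq_bot, LinearMap.ker_eq_bot']
    intro x hx
    refine Subtype.ext ?_
    change u * x.1 = 0 at hx
    rw [mul_comm] at hx
    rcases hkf x.1 x.2 u hu hx with h | h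
    · exact h
    · exact absurd h hu0'
  have h2 : ml u (gp Q 1) = LinearMap.range ((LinearMap.mulLeft K u).domRestrict (gp Q 1)) := by
    rw [LinearMap.range_domRestrict]
    rfl
  rw [dg, heq, h2, LinearMap.finrank_range_of_inj hinj', (hGPD K N Q).2 n hci 1,
    Nat.choose_one_right]

end T3Paux

open T3Paux

/-- T3P. -/
theorem t_t3p (hHOP : HOPStmt) (hPAI : PAIStmt) (hANN : ANNStmt) (hGPM : GPMStmt)
    (hGPD : GPDStmt) : T3PStmt := by
  intro K _ _ N Q U U' hci hU hU' hd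
  obtain ⟨hfin, hmul, hg0, -⟩ := hGPM K N Q
  have hUfin : Module.Finite K U := finV hGPM 2 U hU
  have hU'fin : Module.Finite K U' := finV hGPM 2 U' (hU'.trans hU)
  have hA : ann Q 2 U ≤ gp Q 2 := fun x hx => (mem_ann.1 hx).1
  have hgp2fin : Module.Finite K ↥(gp Q 2) := hfin 2
  have h4 : gp Q 2 * U ≤ gp Q 4 := by
    rw [← hmul 2 2]
    exact Submodule.mul_le.2 (fun a ha b hb => Submodule.mul_mem_mul ha (hU hb))
  have hWfin : Module.Finite K ↥(gp Q 2 * U) := finV hGPM 4 _ h4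
  -- a complement of the annihilator
  obtain ⟨M, hM⟩ := ((ann Q 2 U).submoduleOf (gp Q 2)).exists_isCompl
  have hdim1 : Module.finrank K ↥((ann Q 2 U).submoduleOf (gp Q 2)) =
      Module.finrank K ↥(ann Q 2 U) :=
    LinearEquiv.finrank_eq (Submodule.submoduleOfEquivOfLe hA)
  have hdim2 : Module.finrank K ↥((ann Q 2 U).submoduleOf (gp Q 2)) + Module.finrank K M =
      15 := by
    rw [Submodule.finrank_add_eq_of_isCompl hM, (hGPD K N Q).2 6 hci 2]
    rfl
  have hdim3 : Module.finrank K ↥(ann Q 2 U) + Module.finrank K ↥(gp Q 2 * U) = 15 :=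
    hANN K N 6 Q hci 2 2 2 rfl U hU
  have hr : Module.finrank K M = Module.finrank K ↥(gp Q 2 * U) := by omega
  have hr1 : 1 ≤ Module.finrank K ↥(gp Q 2 * U) := by
    rw [Nat.one_le_iff_ne_zero]
    intro h
    have h1 : gp Q 2 * U = ⊥ := Submodule.finrank_eq_zero.1 h
    have h2 : U ≠ ⊥ := by
      intro h2
      have h3 : U' = ⊥ := by rw [h2] at hU'; exact le_bot_iff.1 hU'
      rw [h3, finrank_bot] at hd
      omega
    obtain ⟨x, hx, hx0⟩ := U.ne_bot_iff.1 h2
    obtain ⟨y, hy, hyx⟩ := hPAI K N 6 Q hci 2 2 (by norm_num) x (hU hx) hx0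
    have h5 : y * x ∈ gp Q 2 * U := Submodule.mul_mem_mul hy hx
    rw [h1] at h5
    exact hyx ((Submodule.mem_bot K).1 h5)
  let β : M →ₗ[K] U' →ₗ[K] ↥(gp Q 2 * U) :=
    LinearMap.mk₂ K (fun x v => ⟨(x.1.1 : PR K N ⧸ Q) * v.1,
        Submodule.mul_mem_mul x.1.2 (hU' v.2)⟩)
      (fun x x' v => Subtype.ext (by simp [add_mul]))
      (fun c x v => Subtype.ext (by
        simp only [Submodule.coe_smul]
        exact smul_mul_assoc _ _ _))
      (fun x v v' => Subtype.ext (by simp [mul_add]))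
      (fun c x v => Subtype.ext (by
        simp only [Submodule.coe_smul]
        exact mul_smul_comm _ _ _))
  obtain ⟨w, v, hw, hv, hwv⟩ := hHOP K M U' ↥(gp Q 2 * U) β (by omega) (by omega) (by omega)
  refine ⟨v.1, v.2, fun h => hv (Subtype.ext h), w.1.1, w.1.2, ?_, ?_⟩
  · exact congrArg Subtype.val hwv
  · by_contra hcon
    push Not at hcon
    apply hw
    have h1 : w.1 ∈ (ann Q 2 U).submoduleOf (gp Q 2) := mem_ann.2 ⟨w.1.2, hcon⟩
    have h2 : w.1 ∈ ((ann Q 2 U).submoduleOf (gp Q 2)) ⊓ M := ⟨h1, w.2⟩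
    rw [hM.inf_eq_bot] at h2
    exact Subtype.ext ((Submodule.mem_bot K).1 h2)

/-- KF3. -/
theorem t_kf3 (hT3P : T3PStmt) (hRNK : RNKStmt) (hGRD : GRDStmt) (hGPM : GPMStmt)
    (hGPD : GPDStmt) : KF3Stmt := by
  intro K _ _ N Q
  have key1 : ∀ U : Submodule K (PR K N ⧸ Q), CI 6 Q → U ≤ gp Q 2 → KF Q U →
      Module.finrank K U = 1 → dg Q U = 6 :=
    fun U hci _ hkf h1 => dg_one hGPD hci U hkf h1
  -- the split
  have key : ∀ U : Submodule K (PR K N ⧸ Q), CI 6 Q → U ≤ gp Q 2 → KF Q U →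
      2 ≤ Module.finrank K U → ∃ V W : Submodule K (PR K N ⧸ Q), V ≤ U ∧ W ≤ gp Q 4 ∧
        1 ≤ Module.finrank K V ∧ 1 ≤ Module.finrank K W ∧
        Module.finrank K V + Module.finrank K W = Module.finrank K U ∧
        dg Q V + dg Q W ≤ dg Q U := by
    intro U hci hU hkf h2
    obtain ⟨u, hu, hu0, w, hw, hwu, v, hv, hwv⟩ := hT3P K N Q U U hci hU le_rfl h2
    obtain ⟨h1, h3⟩ := hRNK K N 2 Q w U hU
    have hW : ml w U ≤ gp Q 4 := by
      rintro _ ⟨v, hv, rfl⟩
      rw [← (hGPM K N Q).2.1 2 2]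
      exact Submodule.mul_mem_mul hw (hU hv)
    have hf1 := finV hGPM 2 (kr w U) ((inf_le_left).trans hU)
    have hf2 := finV hGPM 4 (ml w U) hW
    refine ⟨kr w U, ml w U, inf_le_left, hW, ?_, ?_, h1, h3⟩
    · rw [Nat.one_le_iff_ne_zero]
      intro h
      have h4 : kr w U = ⊥ := Submodule.finrank_eq_zero.1 h
      have h5 : u ∈ kr w U := mem_kr.2 ⟨hu, hwu⟩
      rw [h4] at h5
      exact hu0 ((Submodule.mem_bot K).1 h5)
    · rw [Nat.one_le_iff_ne_zero]
      intro h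
      have h4 : ml w U = ⊥ := Submodule.finrank_eq_zero.1 h
      have h5 : w * v ∈ ml w U := mem_ml.2 ⟨v, hv, rfl⟩
      rw [h4] at h5
      exact hwv ((Submodule.mem_bot K).1 h5)
  have grd : CI 6 Q → ∀ W : Submodule K (PR K N ⧸ Q), W ≤ gp Q 4 →
      Module.finrank K W ≤ (dg Q W).choose 2 := fun hci W hW => hGRD K N 4 Q hci W hW
  have ch : ∀ a b : ℕ, 1 ≤ a → a ≤ b.choose 2 → 2 ≤ b ∧ (2 ≤ a → 3 ≤ b) := by
    intro a b ha hab
    constructor
    · by_contra hc
      have : b.choose 2 = 0 := Nat.choose_eq_zero_of_lt (by omega)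
      omega
    · intro h2
      by_contra hc
      have : b.choose 2 ≤ 1 := by
        have : b.choose 2 ≤ (2 : ℕ).choose 2 := Nat.choose_le_choose 2 (by omega)
        simpa using this
      omega
  have key2 : ∀ U : Submodule K (PR K N ⧸ Q), CI 6 Q → U ≤ gp Q 2 → KF Q U →
      Module.finrank K U = 2 → 8 ≤ dg Q U := by
    intro U hci hU hkf h2
    obtain ⟨V, W, hV, hW, hV1, hW1, hVW, hd⟩ := key U hci hU hkf (by omega)
    have h3 := key1 V hci (hV.trans hU) (fun l hl v hv h => hkf l hl v (hV hv) h) (by omega)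
    have h4 := (ch _ _ hW1 (grd hci W hW)).1
    omega
  intro U hci hU hkf
  refine ⟨key1 U hci hU hkf, key2 U hci hU hkf, ?_⟩
  intro h2
  obtain ⟨V, W, hV, hW, hV1, hW1, hVW, hd⟩ := key U hci hU hkf (by omega)
  have hkfV : KF Q V := fun l hl v hv h => hkf l hl v (hV hv) h
  have h4 := ch _ _ hW1 (grd hci W hW)
  rcases (by omega : Module.finrank K V = 1 ∨ Module.finrank K V = 2) with h | h
  · have h3 := key1 V hci (hV.trans hU) hkfV h
    have h5 := h4.2 (by omega)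
    omega
  · have h3 := key2 V hci (hV.trans hU) hkfV h
    have h5 := h4.1
    omega

/-- RK4. -/
theorem t_rk4 (hT3P : T3PStmt) (hKF3 : KF3Stmt) (hRNK : RNKStmt) (hGRD : GRDStmt)
    (hGPM : GPMStmt) : RK4Stmt := by
  intro K _ _ Q U hc
  obtain ⟨hci, hU, h4, hkf, hd⟩ := hc
  have grd : ∀ W : Submodule K (PR K 6 ⧸ Q), W ≤ gp Q 4 →
      Module.finrank K W ≤ (dg Q W).choose 2 := fun W hW => hGRD K 6 4 Q hci W hW
  have ch : ∀ a b : ℕ, 1 ≤ a → a ≤ b.choose 2 → 2 ≤ b ∧ (2 ≤ a → 3 ≤ b) := by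
    intro a b ha hab
    constructor
    · by_contra hc
      have : b.choose 2 = 0 := Nat.choose_eq_zero_of_lt (by omega)
      omega
    · intro h2
      by_contra hc
      have : b.choose 2 ≤ 1 := by
        have : b.choose 2 ≤ (2 : ℕ).choose 2 := Nat.choose_le_choose 2 (by omega)
        simpa using this
      omega
  have key : ∀ w ∈ gp Q 2, (∀ v ∈ U, w * v = 0) ∨ (3 ≤ Module.finrank K ↥(ml w U) ∧
      (Module.finrank K ↥(ml w U) = 3 → dg Q (ml w U) = 3 ∧ 9 ≤ dg Q U)) := by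
    intro w hw
    by_cases h0 : ∀ v ∈ U, w * v = 0
    · exact Or.inl h0
    right
    push Not at h0
    obtain ⟨v, hv, hwv⟩ := h0
    obtain ⟨h1, h3⟩ := hRNK K 6 2 Q w U hU
    have hW : ml w U ≤ gp Q 4 := by
      rintro _ ⟨v, hv, rfl⟩
      rw [← (hGPM K 6 Q).2.1 2 2]
      exact Submodule.mul_mem_mul hw (hU hv)
    have hf2 := finV hGPM 4 (ml w U) hW
    have hml1 : 1 ≤ Module.finrank K ↥(ml w U) := by
      rw [Nat.one_le_iff_ne_zero]
      intro h
      have h4 : ml w U = ⊥ := Submodule.finrank_eq_zero.1 h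
      have h5 : w * v ∈ ml w U := mem_ml.2 ⟨v, hv, rfl⟩
      rw [h4] at h5
      exact hwv ((Submodule.mem_bot K).1 h5)
    have hkfV : KF Q (kr w U) := fun l hl v hv h => hkf l hl v hv.1 h
    obtain ⟨k1, k2, k3⟩ := hKF3 K 6 Q (kr w U) hci ((inf_le_left).trans hU) hkfV
    have h5 := ch _ _ hml1 (grd _ hW)
    have hge : 3 ≤ Module.finrank K ↥(ml w U) := by
      by_contra hlt
      rcases (by omega : Module.finrank K ↥(ml w U) = 1 ∨ Module.finrank K ↥(ml w U) = 2) with h | h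
      · have := k3 (by omega)
        have := h5.1
        omega
      · have := k2 (by omega)
        have := h5.2 (by omega)
        omega
    refine ⟨hge, fun h => ?_⟩
    have := k1 (by omega)
    have := h5.2 (by omega)
    omega
  constructor
  · obtain ⟨u, hu, hu0, w, hw, hwu, v, hv, hwv⟩ := hT3P K 6 Q U U hci hU le_rfl (by omega)
    rcases key w hw with h | ⟨h1, h2⟩
    · exact absurd (h v hv) hwv
    · obtain ⟨h3, -⟩ := hRNK K 6 2 Q w U hU
      have hf1 := finV hGPM 2 (kr w U) ((inf_le_left).trans hU)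
      have hkr1 : 1 ≤ Module.finrank K ↥(kr w U) := by
        rw [Nat.one_le_iff_ne_zero]
        intro h
        have h4 : kr w U = ⊥ := Submodule.finrank_eq_zero.1 h
        have h5 : u ∈ kr w U := mem_kr.2 ⟨hu, hwu⟩
        rw [h4] at h5
        exact hu0 ((Submodule.mem_bot K).1 h5)
      have := (h2 (by omega)).2
      omega
  · intro w hw
    rcases key w hw with h | ⟨h1, h2⟩
    · exact Or.inl h
    · exact Or.inr ⟨h1, fun h => (h2 h).1⟩

end Pool.EGH

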